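import Pool.Agent.Hhelper75.PolQ.Final

/-!
# Automatic homeomorphicity of the polymorphism clone of the strictly ordered rationals

Outline of the proof.  Let `ξ` be a clone isomorphism from `Pol(ℚ; <)` onto a closed clone on a
countable set `Ω`.
* `Supp`, `Supp2`: every point of `Ω` has a finite support for the action of the automorphisms.
  Pigeonhole arguments combined with the lattice operations `min` and `max` are used.
* `Mono`: by closedness of the image, every strictly monotone `α` acts on `w` like the
  automorphisms agreeing with `α` on a support of `w`.
* `Copies`, `Clone`: operations agreeing on a product of supports act in the same way.
* `Final`: both directions of continuity.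
-/

namespace Pool.Agent.Results.MP_88d3f6_lc.AutoHomeo

open PolQ

/-- The polymorphism clone of the strictly ordered rationals has automatic homeomorphicity. -/
theorem result : AutomaticHomeomorphicity polQ := polQ_automaticHomeomorphicity

end Pool.Agent.Results.MP_88d3f6_lc.AutoHomeo
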